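import Pool.Agent.Y920.JB.Stm

/-!
# Amplification of one level (job JB-AMP)
-/

set_option autoImplicit false

open Topology Filter MeasureTheory Finset

namespace Pool.Agent.Y406.JB

open Pool.Agent.Y920.JB

variable {G : Type} [AddCommGroup G] [TopologicalSpace G]

/-- levels from arbitrary finite index types -/
lemma mk {c : ℝ} {U : Set G} (ι κ : Type) [Fintype ι] [Fintype κ] [Nonempty ι] [Nonempty κ]
    (f : ι → G) (d : κ → G) (S V : Set G) (hS : IsOpen S) (hV : V ∈ 𝓝 (0 : G))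
    (hf : ∀ i, f i ∈ U) (hd : ∀ k, d k ∈ U) (h1 : ∀ x : G, ∃ k, ∀ v ∈ V, x + d k + v ∈ S)
    (h2 : ∀ x : G, (Nat.card {i : ι // ∃ v ∈ V, x + f i + v ∈ S} : ℝ) ≤ c * Fintype.card ι) :
    Lev G c U := by
  obtain ⟨a, ha⟩ : ∃ a, Fintype.card ι = a + 1 :=
    ⟨Fintype.card ι - 1, by have := Fintype.card_pos (α := ι); omega⟩
  obtain ⟨b, hb⟩ : ∃ b, Fintype.card κ = b + 1 :=
    ⟨Fintype.card κ - 1, by have := Fintype.card_pos (α := κ); omega⟩
  let e1 : Fin (a + 1) ≃ ι := (Fintype.equivFinOfCardEq ha).symm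
  let e2 : Fin (b + 1) ≃ κ := (Fintype.equivFinOfCardEq hb).symm
  refine ⟨a, b, fun i => f (e1 i), fun k => d (e2 k), S, V, hS, hV, fun i => hf _, fun k => hd _,
    ?_, ?_⟩
  · intro x
    obtain ⟨k, hk⟩ := h1 x
    refine ⟨e2.symm k, fun v hv => ?_⟩
    show x + d (e2 (e2.symm k)) + v ∈ S
    rw [Equiv.apply_symm_apply]
    exact hk v hv
  · intro x
    have e : Nat.card {i : Fin (a + 1) // ∃ v ∈ V, x + f (e1 i) + v ∈ S} =
        Nat.card {i : ι // ∃ v ∈ V, x + f i + v ∈ S} :=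
      Nat.card_congr (e1.subtypeEquiv fun i => Iff.rfl)
    rw [e]
    have h3 := h2 x
    rw [ha] at h3
    push_cast at h3
    exact h3

open Classical in
lemma card_filt {α : Type} [Fintype α] (p : α → Prop) :
    Nat.card {i // p i} = (univ.filter p).card := by
  rw [Nat.card_eq_fintype_card, Fintype.card_subtype]

lemma mul [IsTopologicalAddGroup G] {c1 c2 : ℝ} (h1 : ∀ U ∈ 𝓝 (0 : G), Lev G c1 U)
    (h2 : ∀ U ∈ 𝓝 (0 : G), Lev G c2 U) (hc2 : 0 ≤ c2) :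
    ∀ U ∈ 𝓝 (0 : G), Lev G (c1 * c2) U := by
  classical
  intro U hU
  obtain ⟨U', hU', hUU⟩ := exists_nhds_zero_half hU
  obtain ⟨a1, b1, f1, d1, S1, V1, hS1, hV1, hf1, hd1, hA1, hB1⟩ := h1 U' hU'
  obtain ⟨V1', hV1', hVV⟩ := exists_nhds_zero_half hV1
  obtain ⟨a2, b2, f2, d2, S2, V2, hS2, hV2, hf2, hd2, hA2, hB2⟩ :=
    h2 (U' ∩ V1') (inter_mem hU' hV1')
  refine mk (Fin (a1 + 1) × Fin (a2 + 1)) (Fin (b1 + 1) × Fin (b2 + 1))
    (fun i => f1 i.1 + f2 i.2) (fun k => d1 k.1 + d2 k.2) (S1 ∩ S2) (V1' ∩ V2) (hS1.inter hS2)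
    (inter_mem hV1' hV2) ?_ ?_ ?_ ?_
  · intro i
    exact hUU _ (hf1 _) _ (hf2 _).1
  · intro k
    exact hUU _ (hd1 _) _ (hd2 _).1
  · intro x
    obtain ⟨k, hk⟩ := hA1 x
    obtain ⟨l, hl⟩ := hA2 (x + d1 k)
    refine ⟨(k, l), fun v hv => ?_⟩
    show x + (d1 k + d2 l) + v ∈ S1 ∩ S2
    refine ⟨?_, ?_⟩
    · have h3 := hk (d2 l + v) (hVV _ (hd2 l).2 _ hv.1)
      have e : x + (d1 k + d2 l) + v = x + d1 k + (d2 l + v) := by abel
      rw [e]
      exact h3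
    · have h3 := hl v hv.2
      have e : x + (d1 k + d2 l) + v = x + d1 k + d2 l + v := by abel
      rw [e]
      exact h3
  · intro x
    rw [card_filt]
    have hsub : (univ.filter fun i : Fin (a1 + 1) × Fin (a2 + 1) =>
        ∃ v ∈ V1' ∩ V2, x + (f1 i.1 + f2 i.2) + v ∈ S1 ∩ S2) ⊆
        (univ.filter fun i : Fin (a1 + 1) => ∃ v ∈ V1, x + f1 i + v ∈ S1).biUnion fun i =>
          (univ.filter fun j : Fin (a2 + 1) => ∃ v ∈ V2, x + f1 i + f2 j + v ∈ S2).image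
            fun j => (i, j) := by
      rintro ⟨i, j⟩ hij
      obtain ⟨v, hv, hvS⟩ := (mem_filter.1 hij).2
      simp only at hvS
      rw [mem_biUnion]
      refine ⟨i, mem_filter.2 ⟨mem_univ _, f2 j + v, hVV _ (hf2 j).2 _ hv.1, ?_⟩,
        mem_image.2 ⟨j, mem_filter.2 ⟨mem_univ _, v, hv.2, ?_⟩, rfl⟩⟩
      · have e : x + f1 i + (f2 j + v) = x + (f1 i + f2 j) + v := by abel
        rw [e]
        exact hvS.1
      · have e : x + f1 i + f2 j + v = x + (f1 i + f2 j) + v := by abel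
        rw [e]
        exact hvS.2
    have h3 : ((univ.filter fun i : Fin (a1 + 1) × Fin (a2 + 1) =>
        ∃ v ∈ V1' ∩ V2, x + (f1 i.1 + f2 i.2) + v ∈ S1 ∩ S2).card : ℝ) ≤
        ∑ i ∈ univ.filter fun i : Fin (a1 + 1) => ∃ v ∈ V1, x + f1 i + v ∈ S1,
          ((univ.filter fun j : Fin (a2 + 1) => ∃ v ∈ V2, x + f1 i + f2 j + v ∈ S2).card : ℝ) := by
      have h4 := (card_le_card hsub).trans card_biUnion_le
      have h5 := h4.trans (Finset.sum_le_sum fun i _ => card_image_le)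
      exact_mod_cast h5
    refine h3.trans ?_
    have h6 : ∀ i ∈ univ.filter fun i : Fin (a1 + 1) => ∃ v ∈ V1, x + f1 i + v ∈ S1,
        ((univ.filter fun j : Fin (a2 + 1) => ∃ v ∈ V2, x + f1 i + f2 j + v ∈ S2).card : ℝ) ≤
          c2 * (a2 + 1) := by
      intro i _
      have h7 := hB2 (x + f1 i)
      rw [card_filt] at h7
      exact h7
    refine (Finset.sum_le_sum h6).trans ?_
    rw [Finset.sum_const, nsmul_eq_mul, Fintype.card_prod, Fintype.card_fin, Fintype.card_fin]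
    have h8 := hB1 x
    rw [card_filt] at h8
    have h9 : 0 ≤ c2 * ((a2 : ℝ) + 1) := by positivity
    push_cast
    calc _ ≤ c1 * ((a1 : ℝ) + 1) * (c2 * ((a2 : ℝ) + 1)) := mul_le_mul_of_nonneg_right h8 h9
      _ = c1 * c2 * (((a1 : ℝ) + 1) * ((a2 : ℝ) + 1)) := by ring

lemma mono {c c' : ℝ} (h : c ≤ c') {U : Set G} (hL : Lev G c U) : Lev G c' U := by
  obtain ⟨a, b, f, d, S, V, h1, h2, h3, h4, h5, h6⟩ := hL
  exact ⟨a, b, f, d, S, V, h1, h2, h3, h4, h5, fun x =>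
    (h6 x).trans (mul_le_mul_of_nonneg_right h (by positivity))⟩

/-- **Amplification.** -/
theorem t_AMP : S_AMP := by
  intro G _ _ _ c hc0 hc1 h ε hε
  have key : ∀ n : ℕ, ∀ U ∈ 𝓝 (0 : G), Lev G (c ^ (n + 1)) U := by
    intro n
    induction n with
    | zero =>
      rw [zero_add, pow_one]
      exact h
    | succ n ih =>
      rw [pow_succ]
      exact mul ih h hc0
  obtain ⟨n, hn⟩ := exists_pow_lt_of_lt_one hε hc1
  intro U hU
  refine mono ?_ (key n U hU)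
  exact (pow_le_pow_of_le_one hc0 hc1.le (Nat.le_succ n)).trans hn.le

end Pool.Agent.Y406.JB
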